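import Pool.Agent.H740.Surf.Tilde
import Pool.Agent.H740.Surf.NonPlanar
import Pool.Agent.H740.Surf.Torus

set_option autoImplicit false

open Set Topology Filter
open Pool.Agent.H740.Surf

namespace Pool.Agent.Results.MP_542b67_gt.StrictInclusion

/-- Negative answer to Q2: the torus `T2 = (ℝ/ℤ)²` is a closed surface and carries a nonplanar
compactum `K` with a pair of points which is in `R̃_K` (with shrinking open neighbourhoods), but
not in the closure of `R_K`. -/
theorem result : IsClosedSurface T2 ∧ ∃ K : Set T2, IsCompact K ∧ ¬ IsPlanar K ∧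
    ∃ x y : K, Rtilde K x y ∧ RtildeBase K x y ∧
      (x, y) ∉ closure {p : K × K | R K p.1 p.2} :=
  ⟨torus_closed, K, isCompact_K, not_planar, x0, y0, rtilde, rtildeBase, not_closure⟩

end Pool.Agent.Results.MP_542b67_gt.StrictInclusion
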